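import Mathlib

/-!
# Convergent power series with real coefficients (for project CP of helper696)
-/

set_option autoImplicit false

namespace Pool.Agent.Run7.h593.CP

/-- termwise differentiation -/
theorem ser_deriv (u : ℕ → ℝ) (b : ℝ) (hu : ∀ y, 0 < y → y < b → Summable fun m => |u m| * y ^ m)
    (x : ℝ) (hx0 : 0 < x) (hx : x < b) :
    (Summable fun m : ℕ => |((m : ℝ) + 1) * u (m + 1)| * x ^ m) ∧
      HasDerivAt (fun z => ∑' m, u m * z ^ m) (∑' m : ℕ, (((m : ℝ) + 1) * u (m + 1)) * x ^ m) x := by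
  obtain ⟨y1, hy1⟩ : ∃ y, y = (2 * x + b) / 3 := ⟨_, rfl⟩
  obtain ⟨y2, hy2⟩ : ∃ y, y = (x + 2 * b) / 3 := ⟨_, rfl⟩
  have h1 : x < y1 := by rw [hy1]; linarith
  have h2 : y1 < y2 := by rw [hy1, hy2]; linarith
  have h3 : y2 < b := by rw [hy2]; linarith
  have hy10 : 0 < y1 := by linarith
  have hy20 : 0 < y2 := by linarith
  have hr0 : 0 ≤ y1 / y2 := by positivity
  have hr1 : y1 / y2 < 1 := by rw [div_lt_one hy20]; exact h2
  obtain ⟨B, hB⟩ := (tendsto_self_mul_const_pow_of_lt_one hr0 hr1).bddAbove_range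
  have hB' : ∀ n : ℕ, (n : ℝ) * (y1 / y2) ^ n ≤ B := fun n => hB ⟨n, rfl⟩
  have hb1 : ∀ n : ℕ, (n : ℝ) * y1 ^ (n - 1) ≤ B / y1 * y2 ^ n := by
    intro n
    cases n with
    | zero =>
      have := hB' 0
      simp only [Nat.cast_zero, zero_mul] at this ⊢
      positivity
    | succ n =>
      have h4 := hB' (n + 1)
      rw [div_pow] at h4
      have h5 : ((n + 1 : ℕ) : ℝ) * y1 ^ (n + 1) ≤ B * y2 ^ (n + 1) := by
        rw [← mul_div_assoc, div_le_iff₀ (by positivity)] at h4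
        exact h4
      rw [Nat.add_sub_cancel, div_mul_eq_mul_div, le_div_iff₀ hy10]
      calc ((n + 1 : ℕ) : ℝ) * y1 ^ n * y1 = ((n + 1 : ℕ) : ℝ) * y1 ^ (n + 1) := by
            rw [pow_succ]; ring
        _ ≤ B * y2 ^ (n + 1) := h5
  have hw : Summable fun n : ℕ => |u n| * (B / y1 * y2 ^ n) := by
    have := (hu y2 hy20 h3).mul_left (B / y1)
    refine this.congr fun n => ?_
    ring
  have hbd : ∀ (n : ℕ) (z : ℝ), z ∈ Set.Ioo (0 : ℝ) y1 →
      ‖u n * ((n : ℝ) * z ^ (n - 1))‖ ≤ |u n| * (B / y1 * y2 ^ n) := by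
    intro n z hz
    rw [norm_mul, Real.norm_eq_abs]
    refine mul_le_mul_of_nonneg_left ?_ (abs_nonneg _)
    rw [Real.norm_eq_abs, abs_of_nonneg (by have := hz.1; positivity)]
    refine le_trans ?_ (hb1 n)
    refine mul_le_mul_of_nonneg_left ?_ (Nat.cast_nonneg n)
    exact pow_le_pow_left₀ hz.1.le hz.2.le _
  have hxm : x ∈ Set.Ioo (0 : ℝ) y1 := ⟨hx0, h1⟩
  have hsum0 : Summable fun n : ℕ => u n * x ^ n := by
    refine Summable.of_norm ?_
    refine (hu x hx0 hx).congr fun n => ?_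
    rw [norm_mul, Real.norm_eq_abs, Real.norm_eq_abs, abs_of_nonneg (by positivity : 0 ≤ x ^ n)]
  have hd := hasDerivAt_tsum_of_isPreconnected (𝕜 := ℝ) (F := ℝ) (g := fun n z => u n * z ^ n)
    (g' := fun n z => u n * ((n : ℝ) * z ^ (n - 1))) hw isOpen_Ioo isPreconnected_Ioo
    (fun n z _ => (hasDerivAt_pow n z).const_mul (u n)) hbd hxm hsum0 hxm
  have hs' : Summable fun n : ℕ => u n * ((n : ℝ) * x ^ (n - 1)) :=
    Summable.of_norm_bounded hw fun n => hbd n x hxm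
  have hs'n : Summable fun n : ℕ => ‖u n * ((n : ℝ) * x ^ (n - 1))‖ :=
    Summable.of_nonneg_of_le (fun _ => norm_nonneg _) (fun n => hbd n x hxm) hw
  constructor
  · have h4 := (summable_nat_add_iff 1).2 hs'n
    refine h4.congr fun m => ?_
    rw [Nat.add_sub_cancel, norm_mul, Real.norm_eq_abs, Real.norm_eq_abs, abs_mul, abs_mul,
      abs_of_nonneg (by positivity : (0 : ℝ) ≤ x ^ m)]
    push_cast
    ring
  · have h4 : ∑' n : ℕ, u n * ((n : ℝ) * x ^ (n - 1)) =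
        ∑' m : ℕ, (((m : ℝ) + 1) * u (m + 1)) * x ^ m := by
      rw [hs'.tsum_eq_zero_add]
      simp only [Nat.cast_zero, zero_mul, mul_zero, zero_add]
      refine tsum_congr fun m => ?_
      rw [Nat.add_sub_cancel]
      push_cast
      ring
    rw [← h4]
    exact hd

/-- analyticity -/
theorem ser_analytic (u : ℕ → ℝ) (b : ℝ) (hu : ∀ y, 0 < y → y < b → Summable fun m => |u m| * y ^ m) :
    AnalyticOnNhd ℝ (fun z => ∑' m, u m * z ^ m) (Set.Ioo 0 b) := by
  intro x hx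
  obtain ⟨y, hy⟩ : ∃ y, y = (x + b) / 2 := ⟨_, rfl⟩
  have h1 : x < y := by rw [hy]; linarith [hx.2]
  have h2 : y < b := by rw [hy]; linarith [hx.2]
  have hy0 : 0 < y := lt_trans hx.1 h1
  obtain ⟨p, hp⟩ : ∃ p, p = FormalMultilinearSeries.ofScalars ℝ u := ⟨_, rfl⟩
  obtain ⟨Y, hY⟩ : ∃ Y : NNReal, (Y : ℝ) = y := ⟨⟨y, hy0.le⟩, rfl⟩
  have hrad : (Y : ENNReal) ≤ p.radius := by
    apply FormalMultilinearSeries.le_radius_of_summable_norm
    refine (hu y hy0 h2).congr fun m => ?_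
    rw [hp, FormalMultilinearSeries.ofScalars_norm, hY]
    rfl
  have hYpos : 0 < Y := by
    rw [← NNReal.coe_pos, hY]
    exact hy0
  have hrpos : 0 < p.radius := lt_of_lt_of_le (by exact_mod_cast hYpos) hrad
  have hf := p.hasFPowerSeriesOnBall hrpos
  have hmem : x ∈ Metric.eball (0 : ℝ) p.radius := by
    rw [Metric.mem_eball, edist_zero_right]
    refine lt_of_lt_of_le ?_ hrad
    rw [enorm_eq_nnnorm]
    norm_cast
    rw [← NNReal.coe_lt_coe, coe_nnnorm, Real.norm_eq_abs, abs_of_pos hx.1, hY]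
    exact h1
  have h3 := hf.analyticAt_of_mem hmem
  have h4 : p.sum = fun z => ∑' m, u m * z ^ m := by
    funext z
    rw [hp]
    exact (FormalMultilinearSeries.ofScalars_sum_eq u z).trans
      (tsum_congr fun m => smul_eq_mul _ _)
  rw [← h4]
  exact h3

end Pool.Agent.Run7.h593.CP
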