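import Pool.Agent.Run7.h696.CP.Iface
import Pool.Agent.Run7.h468.CF.TUPL
import Pool.Agent.Run7.h593.CP.SER0

/-!
# Piece CHA of project CP (helper696): the action of the group on a function with rational derivative
-/

set_option autoImplicit false

open PowerSeries Matrix
open Pool.Agent.Y113 hiding Bm
open Pool.Agent.Y120.GF Pool.Agent.Y120.GH Pool.Agent.Y119.HZ
open Pool.Agent.Y119.HY (cm E Hf Yf Vr)
open Pool.Agent.Run7.h225.HG Pool.Agent.Run7.h696.CF

namespace Pool.Agent.Run7.h593.CP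

open Pool.Agent.Run7.h696.CP

/-- the values of a convergent power series as a function -/
theorem ev_fun (f : ℚ⟦X⟧) (x : ℝ) : ev (1 / x) f = ∑' m : ℕ, ((coeff m f : ℚ) : ℝ) * x ^ m := by
  unfold ev
  refine tsum_congr fun m => ?_
  rw [one_div_one_div]

theorem cv_fun {L : ℝ} (hL : 0 < L) {f : ℚ⟦X⟧} (hf : ∀ t : ℝ, L < t → Cv t f) :
    ∀ y, 0 < y → y < 1 / L → Summable fun m : ℕ => |((coeff m f : ℚ) : ℝ)| * y ^ m := by
  intro y hy0 hy
  have h1 : L < 1 / y := by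
    rw [lt_div_iff₀ hL] at hy
    rw [lt_div_iff₀ hy0]
    linarith
  have h2 := hf (1 / y) h1
  unfold Cv at h2
  refine h2.congr fun m => ?_
  rw [one_div_one_div]

/-- analyticity and derivative of the values -/
theorem ev_deriv {L : ℝ} (hL : 0 < L) {f : ℚ⟦X⟧} (hf : ∀ t : ℝ, L < t → Cv t f) :
    AnalyticOnNhd ℝ (fun x => ev (1 / x) f) (Set.Ioo 0 (1 / L)) ∧
    ∀ x : ℝ, 0 < x → x < 1 / L → Cv (1 / x) (d⁄dX ℚ f) ∧
      HasDerivAt (fun x => ev (1 / x) f) (ev (1 / x) (d⁄dX ℚ f)) x := by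
  have hu := cv_fun hL hf
  constructor
  · have h1 := ser_analytic (fun m => ((coeff m f : ℚ) : ℝ)) (1 / L) hu
    have h2 : (fun x => ev (1 / x) f) = fun z : ℝ => ∑' m : ℕ, ((coeff m f : ℚ) : ℝ) * z ^ m :=
      funext fun x => ev_fun f x
    rw [h2]
    exact h1
  · intro x hx0 hx
    obtain ⟨h1, h2⟩ := ser_deriv (fun m => ((coeff m f : ℚ) : ℝ)) (1 / L) hu x hx0 hx
    have hco : ∀ m : ℕ, ((coeff m (d⁄dX ℚ f) : ℚ) : ℝ) =
        ((m : ℝ) + 1) * ((coeff (m + 1) f : ℚ) : ℝ) := by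
      intro m
      rw [PowerSeries.coeff_derivative]
      push_cast
      ring
    constructor
    · unfold Cv
      refine h1.congr fun m => ?_
      rw [hco, one_div_one_div]
    · have h3 : (fun x => ev (1 / x) f) = fun z : ℝ => ∑' m : ℕ, ((coeff m f : ℚ) : ℝ) * z ^ m :=
        funext fun x => ev_fun f x
      rw [h3, ev_fun]
      have h4 : (∑' m : ℕ, ((coeff m (d⁄dX ℚ f) : ℚ) : ℝ) * x ^ m) =
          ∑' m : ℕ, (((m : ℝ) + 1) * ((coeff (m + 1) f : ℚ) : ℝ)) * x ^ m :=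
        tsum_congr fun m => by rw [hco]
      rw [h4]
      exact h2

/-- the action of the group -/
theorem p_CHA : S_CHA := by
  intro hDER hWRO L n N H W hL hS Λ d e hd hde hcv P R hPR g hg
  obtain ⟨T, hT0, hT⟩ := hDER L n N H W hL hS
  obtain ⟨P', hP1, hP2⟩ := hT P
  obtain ⟨R', hR1, hR2⟩ := hT R
  -- the polynomial relation
  obtain ⟨Z, hZ⟩ : ∃ Z : MvPolynomial (Fin (n * n)) (Polynomial ℚ),
      Z = MvPolynomial.C d * (P * R' - R * P') - MvPolynomial.C (T * e) * P ^ 2 := ⟨_, rfl⟩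
  have haC : ∀ q : Polynomial ℚ, MvPolynomial.aeval (hfg H) (MvPolynomial.C q) = (q : ℚ⟦X⟧) := by
    intro q
    rw [MvPolynomial.aeval_C, PowerSeries.algebraMap_apply']
    simp
  have hZ0 : MvPolynomial.aeval (hfg H) Z = 0 := by
    rw [hZ]
    simp only [map_sub, map_mul, map_pow, haC, Polynomial.coe_mul]
    rw [← hP1, ← hR1, ← hPR]
    have h1 : d⁄dX ℚ (MvPolynomial.aeval (hfg H) P * Λ) =
        MvPolynomial.aeval (hfg H) P * d⁄dX ℚ Λ + Λ * d⁄dX ℚ (MvPolynomial.aeval (hfg H) P) := by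
      rw [Derivation.leibniz, smul_eq_mul, smul_eq_mul]
    rw [h1, ← hde]
    ring
  -- the functions
  have hevR : ∀ (Q : MvPolynomial (Fin (n * n)) (Polynomial ℚ)) (x : ℝ), vP N H Q g x =
      MvPolynomial.eval₂ (evq (x : ℂ)) (fun j => (Yf (cm N) (Hcg H) (x : ℂ) * g *
        E (cm N) (-Complex.log (x : ℂ))) (ix n j).1 (ix n j).2) Q := fun Q x => rfl
  have hrel : ∀ x : ℝ, 0 < x → x < 1 / L → vP N H Z g x = 0 := by
    intro x h1 h2
    exact Pool.Agent.Run7.h468.CF.rel_inv_G hL hS hZ0 h1 h2 hg rfl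
  have hrel2 : ∀ x : ℝ, 0 < x → x < 1 / L →
      evq (x : ℂ) d * (vP N H P g x * vP N H R' g x - vP N H R g x * vP N H P' g x) -
        evq (x : ℂ) (T * e) * vP N H P g x ^ 2 = 0 := by
    intro x h1 h2
    have h3 := hrel x h1 h2
    rw [hevR, hZ] at h3
    simp only [MvPolynomial.eval₂_sub, MvPolynomial.eval₂_mul, MvPolynomial.eval₂_C,
      MvPolynomial.eval₂_pow] at h3
    simp only [hevR]
    exact h3
  obtain ⟨hΛan, hΛd⟩ := ev_deriv hL hcv
  have hderiv : ∀ x : ℝ, 0 < x → x < 1 / L →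
      evq (x : ℂ) d * ((ev (1 / x) (d⁄dX ℚ Λ) : ℝ) : ℂ) = evq (x : ℂ) e := by
    intro x h1 h2
    have h3 : (0 : ℝ) < 1 / x := by positivity
    have h4 := congrArg (ev (1 / x)) hde
    rw [Cv.ev_mul h3 (Cv.coe d) (hΛd x h1 h2).1, ev_coe, ev_coe, one_div_one_div] at h4
    have h5 : ∀ q : Polynomial ℚ, evq (x : ℂ) q = ((Polynomial.aeval x q : ℝ) : ℂ) := by
      intro q
      unfold evq
      show Polynomial.aeval (algebraMap ℝ ℂ x) q = _
      rw [Polynomial.aeval_algebraMap_apply]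
      rfl
    rw [h5, h5, ← h4]
    push_cast
    rfl
  have hpan := (hP2 g).1
  have hran := (hR2 g).1
  have hΛc : AnalyticOnNhd ℝ (fun x : ℝ => ((ev (1 / x) Λ : ℝ) : ℂ)) (Set.Ioo 0 (1 / L)) := by
    intro x hx
    exact (Complex.ofRealCLM.analyticAt _).comp (hΛan x hx)
  have hqan : AnalyticOnNhd ℝ (fun x : ℝ => vP N H R g x - ((ev (1 / x) Λ : ℝ) : ℂ) * vP N H P g x)
      (Set.Ioo 0 (1 / L)) := fun x hx => (hran x hx).sub ((hΛc x hx).mul (hpan x hx))
  -- the exceptional points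
  have hTd : T * d ≠ 0 := mul_ne_zero hT0 hd
  have hF : ({x : ℝ | Polynomial.aeval x (T * d) = 0}).Finite := by
    have h1 := (Polynomial.map (algebraMap ℚ ℝ) (T * d)).roots.toFinset.finite_toSet
    refine h1.subset fun x hx => ?_
    rw [Finset.mem_coe, Multiset.mem_toFinset, Polynomial.mem_roots]
    · rw [Polynomial.IsRoot.def, Polynomial.eval_map_algebraMap]
      exact hx
    · rw [Polynomial.map_ne_zero_iff (algebraMap ℚ ℝ).injective]
      exact hTd
  have hw := hWRO (1 / L) (vP N H P g)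
    (fun x : ℝ => vP N H R g x - ((ev (1 / x) Λ : ℝ) : ℂ) * vP N H P g x)
    {x : ℝ | Polynomial.aeval x (T * d) = 0} hF hpan hqan (by
      intro x hx hxF
      have h5 : ∀ q : Polynomial ℚ, evq (x : ℂ) q = ((Polynomial.aeval x q : ℝ) : ℂ) := by
        intro q
        unfold evq
        show Polynomial.aeval (algebraMap ℝ ℂ x) q = _
        rw [Polynomial.aeval_algebraMap_apply]
        rfl
      have hne : evq (x : ℂ) T * evq (x : ℂ) d ≠ 0 := by
        rw [← map_mul, h5]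
        intro h
        exact hxF (by exact_mod_cast h)
      have e1 : HasDerivAt (fun x : ℝ => vP N H P g x) (deriv (vP N H P g) x) x :=
        (hpan x hx).differentiableAt.hasDerivAt
      have e2 : HasDerivAt (fun x : ℝ => vP N H R g x) (deriv (vP N H R g) x) x :=
        (hran x hx).differentiableAt.hasDerivAt
      have e3 : HasDerivAt (fun x : ℝ => ((ev (1 / x) Λ : ℝ) : ℂ))
          ((ev (1 / x) (d⁄dX ℚ Λ) : ℝ) : ℂ) x := (hΛd x hx.1 hx.2).2.ofReal_comp
      have e4 := e2.sub (e3.mul e1)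
      rw [show deriv (fun x : ℝ => vP N H R g x - ((ev (1 / x) Λ : ℝ) : ℂ) * vP N H P g x) x = _
        from e4.deriv]
      have e5 := hrel2 x hx.1 hx.2
      rw [← (hP2 g).2 x hx.1 hx.2, ← (hR2 g).2 x hx.1 hx.2, map_mul, ← hderiv x hx.1 hx.2] at e5
      apply mul_left_cancel₀ hne
      linear_combination e5)
  rcases hw with h | ⟨φ, h⟩
  · left
    intro x h1 h2
    exact h x ⟨h1, h2⟩
  · right
    refine ⟨φ, fun x h1 h2 => ?_⟩
    have h3 := h x ⟨h1, h2⟩
    linear_combination h3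

end Pool.Agent.Run7.h593.CP
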