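import Mathlib

/-!
# Piece RAT of project CP (helper696): combinations of logarithms are not rational
-/

namespace Pool.Agent.Run7.h593.CP

open Polynomial

theorem hasDerivAt_eval_ofReal (p : ℂ[X]) (x : ℝ) :
    HasDerivAt (fun y : ℝ => p.eval (y : ℂ)) (p.derivative.eval (x : ℂ)) x :=
  (p.hasDerivAt (x : ℂ)).comp_ofReal

/-- a combination of logarithms is not a rational function on an interval -/
theorem rat0 {m : ℕ} (a : Fin m → ℂ) (b : ℝ) (hb : 0 < b) (hinj : Function.Injective a)
    (ha0 : ∀ i, a i ≠ 0) (hab : ∀ i, ∀ x : ℝ, 0 < x → x < b → a i * x ≠ 1) (c : Fin m → ℂ)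
    (hc : c ≠ 0) (Λ : ℝ → ℂ)
    (hΛ : ∀ x : ℝ, 0 < x → x < b → HasDerivAt Λ (∑ i, c i / (1 - a i * x)) x) :
    ∀ n : ℕ, ∀ p r : ℂ[X], p.natDegree = n →
      (∀ x : ℝ, 0 < x → x < b → p.eval (x : ℂ) * Λ x = r.eval (x : ℂ)) → p = 0 := by
  classical
  intro n
  induction n using Nat.strong_induction_on with
  | _ n ih =>
    intro p r hn hpr
    by_contra hp
    -- the polynomials
    obtain ⟨D, hD⟩ : ∃ D : ℂ[X], D = ∏ i, (1 - C (a i) * X) := ⟨_, rfl⟩
    obtain ⟨S, hS⟩ : ∃ S : ℂ[X], S = ∑ i, C (c i) * ∏ j ∈ Finset.univ.erase i, (1 - C (a j) * X) :=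
      ⟨_, rfl⟩
    have hDS : ∀ x : ℝ, 0 < x → x < b →
        D.eval (x : ℂ) * (∑ i, c i / (1 - a i * x)) = S.eval (x : ℂ) := by
      intro x h1 h2
      rw [hD, hS, Polynomial.eval_prod, Polynomial.eval_finsetSum, Finset.mul_sum]
      refine Finset.sum_congr rfl fun i _ => ?_
      rw [← Finset.mul_prod_erase Finset.univ _ (Finset.mem_univ i), Polynomial.eval_mul,
        Polynomial.eval_prod]
      have h3 : (1 - a i * x : ℂ) ≠ 0 := by
        intro h
        exact hab i x h1 h2 (sub_eq_zero.1 h).symm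
      simp only [Polynomial.eval_sub, Polynomial.eval_one, Polynomial.eval_mul,
        Polynomial.eval_C, Polynomial.eval_X]
      field_simp
    have hid : p ^ 2 * S = D * (derivative r * p - r * derivative p) := by
      apply Polynomial.eq_of_infinite_eval_eq
      apply Set.Infinite.mono (s := (fun x : ℝ => (x : ℂ)) '' Set.Ioo 0 b)
      · rintro _ ⟨x, ⟨h1, h2⟩, rfl⟩
        rw [Set.mem_setOf_eq]
        have e1 : HasDerivAt (fun y : ℝ => p.eval (y : ℂ) * Λ y)
            (p.derivative.eval (x : ℂ) * Λ x + p.eval (x : ℂ) * ∑ i, c i / (1 - a i * x)) x :=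
          (hasDerivAt_eval_ofReal p x).mul (hΛ x h1 h2)
        have e2 : (fun y : ℝ => p.eval (y : ℂ) * Λ y) =ᶠ[nhds x] fun y : ℝ => r.eval (y : ℂ) := by
          filter_upwards [Ioo_mem_nhds h1 h2] with y hy
          exact hpr y hy.1 hy.2
        have e3 := (e1.congr_of_eventuallyEq e2.symm).unique (hasDerivAt_eval_ofReal r x)
        have e4 := hDS x h1 h2
        have e5 := hpr x h1 h2
        simp only [Polynomial.eval_mul, Polynomial.eval_pow, Polynomial.eval_sub]
        rw [← e4, ← e3, ← e5]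
        ring
      · apply Set.Infinite.image
        · exact fun x _ y _ h => Complex.ofReal_injective h
        · exact Set.Ioo_infinite hb
    -- a letter with a nonzero coefficient
    obtain ⟨i, hi⟩ : ∃ i, c i ≠ 0 := by
      by_contra h
      push Not at h
      exact hc (funext h)
    obtain ⟨ρ, hρ⟩ : ∃ ρ : ℂ, ρ = 1 / a i := ⟨_, rfl⟩
    have haρ : a i * ρ = 1 := by
      rw [hρ]
      field_simp [ha0 i]
    have hlin : ∀ j, j ≠ i → (1 - a j * ρ : ℂ) ≠ 0 := by
      intro j hj h
      have h1 : a j * ρ = a i * ρ := by rw [haρ]; exact (sub_eq_zero.1 h).symm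
      have hρ0 : ρ ≠ 0 := by
        intro h0
        rw [h0, mul_zero] at haρ
        exact zero_ne_one haρ
      exact hj (hinj (mul_right_cancel₀ hρ0 h1))
    obtain ⟨D1, hD1⟩ : ∃ D1 : ℂ[X], D1 = C (-(a i)) * ∏ j ∈ Finset.univ.erase i, (1 - C (a j) * X) :=
      ⟨_, rfl⟩
    have hDD1 : D = (X - C ρ) * D1 := by
      rw [hD, hD1, ← Finset.mul_prod_erase Finset.univ _ (Finset.mem_univ i)]
      have : (1 - C (a i) * X : ℂ[X]) = (X - C ρ) * C (-(a i)) := by
        have h1 : (1 : ℂ[X]) = C (a i * ρ) := by rw [haρ]; simp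
        rw [h1]
        simp only [C_mul, C_neg]
        ring
      rw [this, mul_assoc]
    have hprodne : (∏ j ∈ Finset.univ.erase i, (1 - C (a j) * X) : ℂ[X]).eval ρ ≠ 0 := by
      rw [Polynomial.eval_prod]
      apply Finset.prod_ne_zero_iff.2
      intro j hj
      have := hlin j (Finset.ne_of_mem_erase hj)
      simpa using this
    have hD1ρ : D1.eval ρ ≠ 0 := by
      rw [hD1, Polynomial.eval_mul, Polynomial.eval_C]
      exact mul_ne_zero (neg_ne_zero.2 (ha0 i)) hprodne
    have hSρ : S.eval ρ ≠ 0 := by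
      rw [hS, Polynomial.eval_finsetSum, Finset.sum_eq_single i]
      · rw [Polynomial.eval_mul, Polynomial.eval_C]
        exact mul_ne_zero hi hprodne
      · intro j _ hj
        rw [Polynomial.eval_mul, Polynomial.eval_prod]
        have : ∏ k ∈ Finset.univ.erase j, eval ρ (1 - C (a k) * X) = 0 := by
          apply Finset.prod_eq_zero (Finset.mem_erase.2 ⟨hj.symm, Finset.mem_univ i⟩)
          simp [haρ]
        rw [this, mul_zero]
      · intro h
        exact absurd (Finset.mem_univ i) h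
    have hρint : ∀ x : ℝ, 0 < x → x < b → (x : ℂ) - ρ ≠ 0 := by
      intro x h1 h2 h
      apply hab i x h1 h2
      rw [sub_eq_zero.1 h, haρ]
    -- `p` vanishes at `ρ`
    have hpρ : p.IsRoot ρ := by
      have h1 := congrArg (Polynomial.eval ρ) hid
      rw [hDD1] at h1
      simp only [Polynomial.eval_mul, Polynomial.eval_pow, Polynomial.eval_sub,
        Polynomial.eval_X, Polynomial.eval_C, sub_self, zero_mul] at h1
      rcases mul_eq_zero.1 h1 with h2 | h2
      · exact (pow_eq_zero_iff two_ne_zero).1 h2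
      · exact absurd h2 hSρ
    by_cases hrρ : r.IsRoot ρ
    · -- divide by `X - ρ`
      obtain ⟨p1, hp1⟩ := Polynomial.dvd_iff_isRoot.2 hpρ
      obtain ⟨r1, hr1⟩ := Polynomial.dvd_iff_isRoot.2 hrρ
      have hp10 : p1 ≠ 0 := by
        intro h
        rw [h, mul_zero] at hp1
        exact hp hp1
      have hdeg : p1.natDegree < n := by
        rw [← hn, hp1, Polynomial.natDegree_mul (Polynomial.X_sub_C_ne_zero ρ) hp10,
          Polynomial.natDegree_X_sub_C]
        omega
      apply hp10
      refine ih p1.natDegree hdeg p1 r1 rfl fun x h1 h2 => ?_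
      have h3 := hpr x h1 h2
      rw [hp1, hr1] at h3
      simp only [Polynomial.eval_mul, Polynomial.eval_sub, Polynomial.eval_X,
        Polynomial.eval_C] at h3
      apply mul_left_cancel₀ (hρint x h1 h2)
      rw [← mul_assoc]
      exact h3
    · -- compare the orders at `ρ`
      obtain ⟨p2, hp2, hp2ρ⟩ := Polynomial.exists_eq_pow_rootMultiplicity_mul_and_not_dvd p hp ρ
      obtain ⟨v, hv⟩ : ∃ v, v = p.rootMultiplicity ρ := ⟨_, rfl⟩
      rw [← hv] at hp2
      have hv1 : 0 < v := by
        rw [hv]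
        exact (Polynomial.rootMultiplicity_pos hp).2 hpρ
      obtain ⟨w, hw⟩ : ∃ w, v = w + 1 := ⟨v - 1, by omega⟩
      have hp2ρ' : p2.eval ρ ≠ 0 := fun h => hp2ρ (Polynomial.dvd_iff_isRoot.2 h)
      have hderiv : derivative p = (X - C ρ) ^ w * (C (v : ℂ) * p2 + (X - C ρ) * derivative p2) := by
        rw [hp2, hw, Polynomial.derivative_mul, Polynomial.derivative_X_sub_C_pow]
        rw [Nat.add_sub_cancel, pow_succ]
        push_cast
        simp only [map_add, map_natCast, map_one]
        ring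
      have hkey : (X - C ρ) ^ (w + 1) * p2 ^ 2 * S =
          D1 * ((X - C ρ) * (derivative r * p2 - r * derivative p2) - C (v : ℂ) * (r * p2)) := by
        have hne : ((X - C ρ) ^ (w + 1) : ℂ[X]) ≠ 0 := pow_ne_zero _ (Polynomial.X_sub_C_ne_zero ρ)
        apply mul_left_cancel₀ hne
        have h1 := hid
        rw [hderiv, hDD1] at h1
        have h2 : p = (X - C ρ) ^ (w + 1) * p2 := by rw [← hw]; exact hp2
        rw [h2] at h1
        calc (X - C ρ) ^ (w + 1) * ((X - C ρ) ^ (w + 1) * p2 ^ 2 * S)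
            = ((X - C ρ) ^ (w + 1) * p2) ^ 2 * S := by ring
          _ = _ := by
            rw [h1, pow_succ]
            ring
      have h3 := congrArg (Polynomial.eval ρ) hkey
      simp only [Polynomial.eval_mul, Polynomial.eval_pow, Polynomial.eval_sub,
        Polynomial.eval_X, Polynomial.eval_C, sub_self, zero_mul, zero_sub] at h3
      rw [zero_pow (Nat.succ_ne_zero w), zero_mul, zero_mul] at h3
      have hvc : (v : ℂ) ≠ 0 := by exact_mod_cast hv1.ne'
      have : D1.eval ρ * -((v : ℂ) * (r.eval ρ * p2.eval ρ)) ≠ 0 :=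
        mul_ne_zero hD1ρ (neg_ne_zero.2 (mul_ne_zero hvc (mul_ne_zero hrρ hp2ρ')))
      exact this h3.symm

end Pool.Agent.Run7.h593.CP
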