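import Pool.Agent.Run7.h696.CP.Iface
import Pool.Agent.Run7.h593.CP.RAT0

/-!
# Piece RAT of project CP (helper696)
-/

set_option autoImplicit false

open PowerSeries
open Pool.Agent.Y113 hiding Bm

namespace Pool.Agent.Run7.h593.CP

open Pool.Agent.Run7.h696.CP

theorem co_zero {m : ℕ} (a : Fin m → ℤ) (i : Fin m) : co a [some i] 0 = 0 := by
  simp [co]

theorem co_succ {m : ℕ} (a : Fin m → ℤ) (i : Fin m) (k : ℕ) :
    co a [some i] (k + 1) = (a i : ℚ) ^ k / (k + 1) := by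
  simp only [co]
  rw [Finset.sum_eq_single 0]
  · simp
  · intro l _ hl
    simp [hl]
  · intro h
    exact absurd (Finset.mem_range.2 (Nat.succ_pos k)) h

/-- the values of the logarithms -/
theorem hasSum_co {m : ℕ} (a : Fin m → ℤ) (i : Fin m) (hi : a i ≠ 0) (x : ℝ)
    (hx : |(a i : ℝ) * x| < 1) :
    HasSum (fun k : ℕ => ((co a [some i] k : ℚ) : ℝ) * x ^ k)
      (-Real.log (1 - (a i : ℝ) * x) / (a i : ℝ)) := by
  have hi' : (a i : ℝ) ≠ 0 := by exact_mod_cast hi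
  have h1 := (Real.hasSum_pow_div_log_of_abs_lt_one hx).div_const (a i : ℝ)
  rw [← hasSum_nat_add_iff' 1]
  have e1 : ∑ j ∈ Finset.range 1, ((co a [some i] j : ℚ) : ℝ) * x ^ j = 0 := by
    rw [Finset.sum_range_one, co_zero]
    simp
  rw [e1, sub_zero]
  have e2 : (fun k : ℕ => ((co a [some i] (k + 1) : ℚ) : ℝ) * x ^ (k + 1)) =
      fun k : ℕ => ((a i : ℝ) * x) ^ (k + 1) / ((k : ℝ) + 1) / (a i : ℝ) := by
    funext k
    rw [co_succ]
    push_cast
    have : (k : ℝ) + 1 ≠ 0 := by positivity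
    field_simp
    ring
  rw [e2]
  exact h1

/-- the values of the combinations -/
theorem ev_comb {m : ℕ} (a : Fin m → ℤ) (c : Fin m → ℚ) (ha0 : ∀ i, a i ≠ 0) (x : ℝ)
    (hx0 : 0 < x) (hx : ∀ i, |(a i : ℝ) * x| < 1) :
    ev (1 / x) (∑ i, C (c i) * hy a [some i]) =
      ∑ i, (c i : ℝ) * (-Real.log (1 - (a i : ℝ) * x) / (a i : ℝ)) := by
  unfold ev
  have h1 : HasSum (fun k : ℕ => ∑ i, (c i : ℝ) * (((co a [some i] k : ℚ) : ℝ) * x ^ k))
      (∑ i, (c i : ℝ) * (-Real.log (1 - (a i : ℝ) * x) / (a i : ℝ))) :=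
    hasSum_sum fun i _ => (hasSum_co a i (ha0 i) x (hx i)).mul_left _
  rw [← h1.tsum_eq]
  congr 1
  funext k
  have e1 : (1 : ℝ) / (1 / x) = x := by simp
  rw [e1, map_sum]
  push_cast
  rw [Finset.sum_mul]
  refine Finset.sum_congr rfl fun i _ => ?_
  rw [PowerSeries.coeff_C_mul]
  unfold hy
  rw [PowerSeries.coeff_mk]
  push_cast
  ring

/-- the logarithms are not rational functions -/
theorem p_RAT : S_RAT := by
  intro m a L hinj ha0 hL haL c hc p r hpr
  have hL0 : 0 < L := by linarith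
  have hb : (0 : ℝ) < 1 / L := by positivity
  have hlt : ∀ i, ∀ x : ℝ, 0 < x → x < 1 / L → |(a i : ℝ) * x| < 1 := by
    intro i x h1 h2
    rw [abs_mul, abs_of_pos h1]
    rw [lt_div_iff₀ hL0] at h2
    have h3 := haL i
    calc |(a i : ℝ)| * x ≤ L * x := mul_le_mul_of_nonneg_right h3 h1.le
      _ = x * L := by ring
      _ < 1 := h2
  obtain ⟨Λ, hΛdef⟩ : ∃ Λ : ℝ → ℂ, Λ = fun x =>
      ∑ i, ((c i : ℝ) : ℂ) * (((-Real.log (1 - (a i : ℝ) * x) / (a i : ℝ)) : ℝ) : ℂ) := ⟨_, rfl⟩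
  have hval : ∀ x : ℝ, 0 < x → x < 1 / L →
      ((ev (1 / x) (∑ i, C (c i) * hy a [some i]) : ℝ) : ℂ) = Λ x := by
    intro x h1 h2
    rw [ev_comb a c ha0 x h1 fun i => hlt i x h1 h2, hΛdef]
    push_cast
    rfl
  refine rat0 (fun i => ((a i : ℝ) : ℂ)) (1 / L) hb ?_ ?_ ?_ (fun i => ((c i : ℝ) : ℂ)) ?_ Λ ?_
    p.natDegree p r rfl ?_
  · intro i j hij
    apply hinj
    have hij' : ((a i : ℝ) : ℂ) = ((a j : ℝ) : ℂ) := hij
    exact_mod_cast hij'
  · intro i
    have := ha0 i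
    exact_mod_cast this
  · intro i x h1 h2 h
    have h3 := hlt i x h1 h2
    have h4 : (a i : ℝ) * x = 1 := by exact_mod_cast h
    rw [h4] at h3
    simp at h3
  · intro h
    apply hc
    funext i
    have h1 : ((c i : ℝ) : ℂ) = (0 : ℂ) := congrFun h i
    have h2 : c i = 0 := by exact_mod_cast h1
    exact h2
  · intro x h1 h2
    rw [hΛdef]
    have e1 : HasDerivAt (fun y : ℝ => ∑ i, ((c i : ℝ) : ℂ) *
        (((-Real.log (1 - (a i : ℝ) * y) / (a i : ℝ)) : ℝ) : ℂ))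
        (∑ i, ((c i : ℝ) : ℂ) * ((1 / (1 - (a i : ℝ) * x) : ℝ) : ℂ)) x := by
      apply HasDerivAt.fun_sum
      intro i _
      apply HasDerivAt.const_mul
      apply HasDerivAt.ofReal_comp
      have h3 : 1 - (a i : ℝ) * x ≠ 0 := by
        have h4 := hlt i x h1 h2
        have h5 := (abs_lt.1 h4).2
        intro h
        linarith
      have h4 : (a i : ℝ) ≠ 0 := by exact_mod_cast ha0 i
      have h5 : HasDerivAt (fun y : ℝ => 1 - (a i : ℝ) * y) (-(a i : ℝ)) x := by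
        have := ((hasDerivAt_id x).const_mul (a i : ℝ)).const_sub 1
        simpa using this
      have h6 : HasDerivAt (fun y : ℝ => -Real.log (1 - (a i : ℝ) * y) / (a i : ℝ))
          (-(-(a i : ℝ) / (1 - (a i : ℝ) * x)) / (a i : ℝ)) x :=
        ((h5.log h3).neg).div_const (a i : ℝ)
      have h7 : -(-(a i : ℝ) / (1 - (a i : ℝ) * x)) / (a i : ℝ) = 1 / (1 - (a i : ℝ) * x) := by
        field_simp
      rw [h7] at h6
      exact h6
    convert e1 using 1
    refine Finset.sum_congr rfl fun i _ => ?_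
    push_cast
    ring
  · intro x h1 h2
    rw [← hval x h1 h2]
    exact hpr x h1 h2

end Pool.Agent.Run7.h593.CP
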