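import Mathlib

/-!
# Piece WRO of project CP (helper696): analytic functions with Wronskian zero
-/

namespace Pool.Agent.Run7.h593.CP

/-- two analytic functions on an interval with Wronskian zero are proportional -/
theorem wro0 (b : ℝ) (p q : ℝ → ℂ) (F : Set ℝ) (hF : F.Finite)
    (hp : AnalyticOnNhd ℝ p (Set.Ioo 0 b)) (hq : AnalyticOnNhd ℝ q (Set.Ioo 0 b))
    (hw : ∀ x ∈ Set.Ioo 0 b, x ∉ F → p x * deriv q x = q x * deriv p x) :
    (∀ x ∈ Set.Ioo 0 b, p x = 0) ∨ ∃ φ : ℂ, ∀ x ∈ Set.Ioo 0 b, q x = φ * p x := by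
  by_cases h0 : ∀ x ∈ Set.Ioo 0 b, p x = 0
  · exact Or.inl h0
  · right
    push Not at h0
    obtain ⟨x0, hx0, hpx0⟩ := h0
    -- the open set where `p` does not vanish
    have hopen : IsOpen (Set.Ioo 0 b ∩ p ⁻¹' {0}ᶜ) :=
      hp.continuousOn.isOpen_inter_preimage isOpen_Ioo isOpen_compl_singleton
    have hinf : (Set.Ioo 0 b ∩ p ⁻¹' {0}ᶜ).Infinite :=
      infinite_of_mem_nhds x0 (hopen.mem_nhds ⟨hx0, hpx0⟩)
    obtain ⟨x1, hx1, hx1F⟩ := (hinf.sdiff hF).nonempty
    have hopen2 : IsOpen ((Set.Ioo 0 b ∩ p ⁻¹' {0}ᶜ) ∩ Fᶜ) := hopen.inter hF.isClosed.isOpen_compl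
    obtain ⟨ε, hε, hball⟩ := Metric.isOpen_iff.1 hopen2 x1 ⟨hx1, hx1F⟩
    have hd : ∀ x ∈ Metric.ball x1 ε, HasDerivAt (fun y => q y / p y) 0 x := by
      intro x hx
      obtain ⟨⟨h1, h2⟩, h3⟩ := hball hx
      have hpx : p x ≠ 0 := h2
      have e1 := (hq x h1).differentiableAt.hasDerivAt
      have e2 := (hp x h1).differentiableAt.hasDerivAt
      have e3 := e1.div e2 hpx
      have e4 : (deriv q x * p x - q x * deriv p x) / p x ^ 2 = 0 := by
        have := hw x h1 h3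
        rw [mul_comm (deriv q x), this, sub_self, zero_div]
      rw [e4] at e3
      exact e3
    refine ⟨q x1 / p x1, ?_⟩
    have hconst : ∀ x ∈ Metric.ball x1 ε, q x / p x = q x1 / p x1 := by
      intro x hx
      exact Metric.isOpen_ball.is_const_of_deriv_eq_zero (convex_ball x1 ε).isPreconnected
        (fun y hy => (hd y hy).differentiableAt.differentiableWithinAt)
        (fun y hy => (hd y hy).deriv) hx (Metric.mem_ball_self hε)
    have hphi : AnalyticOnNhd ℝ (fun x => q x1 / p x1 * p x) (Set.Ioo 0 b) :=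
      fun x hx => analyticAt_const.mul (hp x hx)
    have hev : q =ᶠ[nhds x1] fun x => q x1 / p x1 * p x := by
      filter_upwards [Metric.ball_mem_nhds x1 hε] with x hx
      obtain ⟨⟨h1, h2⟩, h3⟩ := hball hx
      have hpx : p x ≠ 0 := h2
      rw [← hconst x hx]
      field_simp
    have hx1' : x1 ∈ Set.Ioo 0 b := hx1.1
    exact fun x hx => hq.eqOn_of_preconnected_of_eventuallyEq hphi isPreconnected_Ioo hx1' hev hx

end Pool.Agent.Run7.h593.CP
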