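import Pool.Agent.Run7.h696.CP.Iface
import Pool.Agent.Run7.h593.CP.WRO0

/-!
# Piece WRO of project CP (helper696)
-/

namespace Pool.Agent.Run7.h593.CP

/-- analytic functions with Wronskian zero -/
theorem p_WRO : Pool.Agent.Run7.h696.CP.S_WRO := fun b p q F hF hp hq hw => wro0 b p q F hF hp hq hw

end Pool.Agent.Run7.h593.CP
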